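import Mathlib

/-!
# A 2-arc-strong split digraph of minimum degree 5 without a strong arc decomposition

The digraph has the vertices `0, ..., 5` and the sixteen arcs

`0 → 1, 2, 5`, `1 → 2, 3, 4, 5`, `2 → 3, 5`, `3 → 0, 4`, `4 → 1, 2, 3`, `5 → 0, 2`.

The vertices `4` and `5` are not adjacent and `{0, 1, 2, 3}` induces a tournament. Five sets of
vertices are left by exactly two arcs each:

* `{0, 2, 5}` by `01` and `23`,
* `{2, 5}` by `23` and `50`,
* `{1, 2, 3, 4, 5}` by `50` and `30`,
* `{3}` by `30` and `34`,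
* `{0, 2, 3, 5}` by `34` and `01`.

In a strong arc decomposition the two arcs leaving such a set are in different parts, which is
impossible as `01, 23, 50, 30, 34` is a cyclic sequence of five arcs.
-/

set_option autoImplicit false

namespace Pool.Agent.Results.MP_cb4251_co.SixVertices

/-- `D` is strongly connected: there is a directed path from every vertex to every vertex. -/
def Strong {V : Type} (D : V → V → Prop) : Prop := ∀ u v : V, Relation.ReflTransGen D u v

/-- `D` without the arcs of `X` -/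
def delete {V : Type} (D : V → V → Prop) (X : Finset (V × V)) : V → V → Prop :=
  fun u v => D u v ∧ (u, v) ∉ X

/-- `D` is `k`-arc-strong: it is strongly connected after the deletion of fewer than `k` arcs. -/
def ArcStrong {V : Type} (k : ℕ) (D : V → V → Prop) : Prop :=
  ∀ X : Finset (V × V), X.card < k → Strong (delete D X)

/-- `D` is a split digraph: the vertices are partitioned into `V₂ᶜ`, which is independent, and `V₂`,
any two distinct vertices of which are joined by at least one arc. -/
def IsSplit {V : Type} (D : V → V → Prop) : Prop :=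
  ∃ V₂ : Set V, (∀ u v, u ∉ V₂ → v ∉ V₂ → ¬ D u v) ∧
    ∀ u v, u ∈ V₂ → v ∈ V₂ → u ≠ v → D u v ∨ D v u

/-- the degree of `v`, the number of arcs leaving `v` plus the number of arcs entering `v` -/
noncomputable def degree {V : Type} (D : V → V → Prop) (v : V) : ℕ :=
  {w | D v w}.ncard + {w | D w v}.ncard

/-- `D` has a strong arc decomposition: the arcs are partitioned into the arcs of two strongly
connected spanning subdigraphs. -/
def HasStrongArcDecomposition {V : Type} (D : V → V → Prop) : Prop :=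
  ∃ D₁ D₂ : V → V → Prop, (∀ u v, D u v ↔ D₁ u v ∨ D₂ u v) ∧ (∀ u v, ¬ (D₁ u v ∧ D₂ u v)) ∧
    Strong D₁ ∧ Strong D₂

/-- the arcs of the example -/
def arc : Fin 6 → Fin 6 → Bool
  | 0, v => v = 1 || v = 2 || v = 5
  | 1, v => v = 2 || v = 3 || v = 4 || v = 5
  | 2, v => v = 3 || v = 5
  | 3, v => v = 0 || v = 4
  | 4, v => v = 1 || v = 2 || v = 3
  | 5, v => v = 0 || v = 2

/-- the example -/
def D (u v : Fin 6) : Prop := arc u v = true

/-- A closed walk through all vertices which avoids the arc `(a, b)`; it shows that `D` without that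
arc is strong. -/
def tour (a b : Fin 6) : List (Fin 6) :=
  if (a, b) = (0, 1) then [0, 2, 3, 4, 1, 5, 0]
  else if (a, b) = (0, 2) then [0, 1, 2, 3, 4, 1, 5, 0]
  else if (a, b) = (0, 5) then [0, 1, 2, 3, 4, 1, 5, 0]
  else if (a, b) = (1, 2) then [0, 1, 4, 2, 3, 0, 5, 0]
  else if (a, b) = (1, 3) then [0, 1, 2, 3, 4, 1, 5, 0]
  else if (a, b) = (1, 4) then [0, 1, 2, 3, 4, 1, 5, 0]
  else if (a, b) = (1, 5) then [0, 1, 2, 3, 4, 1, 2, 5, 0]
  else if (a, b) = (2, 3) then [0, 1, 4, 3, 0, 2, 5, 0]
  else if (a, b) = (2, 5) then [0, 1, 2, 3, 4, 1, 5, 0]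
  else if (a, b) = (3, 0) then [0, 1, 2, 3, 4, 1, 5, 0]
  else if (a, b) = (3, 4) then [0, 1, 4, 2, 3, 0, 5, 0]
  else if (a, b) = (4, 1) then [0, 1, 4, 2, 3, 0, 5, 0]
  else if (a, b) = (4, 2) then [0, 1, 2, 3, 4, 1, 5, 0]
  else if (a, b) = (4, 3) then [0, 1, 2, 3, 4, 1, 5, 0]
  else if (a, b) = (5, 0) then [0, 1, 5, 2, 3, 4, 3, 0]
  else if (a, b) = (5, 2) then [0, 1, 2, 3, 4, 1, 5, 0]
  else [0, 1, 2, 3, 4, 1, 5, 0]

/-- `tour a b` is a walk of arcs different from `(a, b)`. -/
def goodWalk (a b : Fin 6) : List (Fin 6) → Bool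
  | [] => true
  | [_] => true
  | u :: v :: l => arc u v && decide ((u, v) ≠ (a, b)) && goodWalk a b (v :: l)

lemma walk_reach (a b : Fin 6) (l : List (Fin 6)) (u : Fin 6) (h : goodWalk a b (u :: l) = true) :
    ∀ w ∈ u :: l, Relation.ReflTransGen (fun x y => D x y ∧ (x, y) ≠ (a, b)) u w := by
  induction l generalizing u with
  | nil =>
    intro w hw
    rw [List.mem_singleton] at hw
    rw [hw]
  | cons v l ih =>
    intro w hw
    simp only [goodWalk, Bool.and_eq_true, decide_eq_true_eq] at h
    rcases List.mem_cons.1 hw with rfl | hw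
    · exact Relation.ReflTransGen.refl
    · exact Relation.ReflTransGen.head ⟨h.1.1, h.1.2⟩ (ih v h.2 w hw)

lemma walk_reach' (a b : Fin 6) (l : List (Fin 6)) (u z : Fin 6)
    (h : goodWalk a b (u :: l) = true) (hz : (u :: l).getLast? = some z) :
    ∀ w ∈ u :: l, Relation.ReflTransGen (fun x y => D x y ∧ (x, y) ≠ (a, b)) w z := by
  induction l generalizing u with
  | nil =>
    intro w hw
    rw [List.mem_singleton] at hw
    simp only [List.getLast?_singleton, Option.some.injEq] at hz
    rw [hw, hz]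
  | cons v l ih =>
    intro w hw
    simp only [goodWalk, Bool.and_eq_true, decide_eq_true_eq] at h
    have hz' : (v :: l).getLast? = some z := by
      rw [List.getLast?_cons_cons] at hz
      exact hz
    rcases List.mem_cons.1 hw with rfl | hw
    · exact Relation.ReflTransGen.head ⟨h.1.1, h.1.2⟩ (ih v h.2 hz' v (List.mem_cons_self))
    · exact ih v h.2 hz' w hw

lemma tour_good : ∀ a b : Fin 6, (tour a b).head? = some 0 ∧ (tour a b).getLast? = some 0 ∧
    goodWalk a b (tour a b) = true ∧ ∀ w : Fin 6, w ∈ tour a b := by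
  decide

lemma strong_without (a b : Fin 6) : Strong (fun x y => D x y ∧ (x, y) ≠ (a, b)) := by
  obtain ⟨h1, h2, h3, h4⟩ := tour_good a b
  intro u v
  have hu := h4 u
  have hv := h4 v
  cases h : tour a b with
  | nil => rw [h] at h1; simp at h1
  | cons x l =>
    rw [h] at h1 h2 h3 hu hv
    simp only [List.head?_cons, Option.some.injEq] at h1
    subst h1
    exact (walk_reach' a b l 0 0 h3 h2 u hu).trans (walk_reach a b l 0 h3 v hv)

lemma arcStrong : ArcStrong 2 D := by
  intro X hX
  have hX' : X.card ≤ 1 := by omega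
  rw [Finset.card_le_one_iff_subset_singleton] at hX'
  obtain ⟨⟨a, b⟩, h⟩ := hX'
  intro u v
  refine Relation.ReflTransGen.mono ?_ u v (strong_without a b u v)
  rintro x y ⟨hxy, hne⟩
  refine ⟨hxy, fun hmem => hne ?_⟩
  simpa using h hmem

/-- A strong digraph has an arc leaving each nonempty proper set of vertices. -/
lemma exists_leaving {E : Fin 6 → Fin 6 → Prop} (hE : Strong E) (X : Fin 6 → Bool) (a b : Fin 6)
    (ha : X a = true) (hb : X b = false) : ∃ u v, E u v ∧ X u = true ∧ X v = false := by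
  by_contra hno
  push Not at hno
  have key : ∀ w, Relation.ReflTransGen E a w → X w = true := by
    intro w hw
    induction hw with
    | refl => exact ha
    | tail _ h ih =>
      have := hno _ _ h ih
      simpa using this
  rw [key b (hE a b)] at hb
  exact absurd hb (by decide)

lemma no_decomposition : ¬ HasStrongArcDecomposition D := by
  rintro ⟨D₁, D₂, h, hd, h1, h2⟩
  -- the two arcs leaving a set that is left by two arcs only are in different parts
  have key : ∀ (X : Fin 6 → Bool) (s t a b c d : Fin 6), X s = true → X t = false →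
      (∀ u v : Fin 6, arc u v = true → X u = true → X v = false →
        (u = a ∧ v = b) ∨ (u = c ∧ v = d)) →
      (D₁ a b ∨ D₁ c d) ∧ (D₂ a b ∨ D₂ c d) := by
    intro X s t a b c d hs ht hX
    constructor
    · obtain ⟨u, v, huv, hu, hv⟩ := exists_leaving h1 X s t hs ht
      rcases hX u v ((h u v).2 (Or.inl huv)) hu hv with ⟨rfl, rfl⟩ | ⟨rfl, rfl⟩
      · exact Or.inl huv
      · exact Or.inr huv
    · obtain ⟨u, v, huv, hu, hv⟩ := exists_leaving h2 X s t hs ht
      rcases hX u v ((h u v).2 (Or.inr huv)) hu hv with ⟨rfl, rfl⟩ | ⟨rfl, rfl⟩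
      · exact Or.inl huv
      · exact Or.inr huv
  have k1 := key ![true, false, true, false, false, true] 0 1 0 1 2 3 rfl rfl (by decide)
  have k2 := key ![false, false, true, false, false, true] 2 0 2 3 5 0 rfl rfl (by decide)
  have k3 := key ![false, true, true, true, true, true] 1 0 5 0 3 0 rfl rfl (by decide)
  have k4 := key ![false, false, false, true, false, false] 3 0 3 0 3 4 rfl rfl (by decide)
  have k5 := key ![true, false, true, true, false, true] 0 1 3 4 0 1 rfl rfl (by decide)
  by_cases c : D₁ 0 1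
  · have c2 : D₂ 2 3 := k1.2.resolve_left fun x => hd _ _ ⟨c, x⟩
    have c3 : D₁ 5 0 := k2.1.resolve_left fun x => hd _ _ ⟨x, c2⟩
    have c4 : D₂ 3 0 := k3.2.resolve_left fun x => hd _ _ ⟨c3, x⟩
    have c5 : D₁ 3 4 := k4.1.resolve_left fun x => hd _ _ ⟨x, c4⟩
    exact hd _ _ ⟨c, k5.2.resolve_left fun x => hd _ _ ⟨c5, x⟩⟩
  · have c2 : D₁ 2 3 := k1.1.resolve_left c
    have c3 : D₂ 5 0 := k2.2.resolve_left fun x => hd _ _ ⟨c2, x⟩
    have c4 : D₁ 3 0 := k3.1.resolve_left fun x => hd _ _ ⟨x, c3⟩
    have c5 : D₂ 3 4 := k4.2.resolve_left fun x => hd _ _ ⟨c4, x⟩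
    exact c (k5.1.resolve_left fun x => hd _ _ ⟨x, c5⟩)

lemma isSplit : IsSplit D := by
  refine ⟨{v | v = 0 ∨ v = 1 ∨ v = 2 ∨ v = 3}, ?_, ?_⟩
  · simp only [Set.mem_ofPred_eq]
    unfold D
    decide
  · simp only [Set.mem_ofPred_eq]
    unfold D
    decide

lemma five_le_degree (v : Fin 6) : 5 ≤ degree D v := by
  classical
  unfold degree D
  rw [Set.ncard_eq_toFinset_card', Set.ncard_eq_toFinset_card']
  revert v
  decide

/-- There is a loopless digraph `D` on six vertices that is a 2-arc-strong split digraph, each vertex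
of which has degree at least five, without a strong arc decomposition. -/
theorem result : ∃ D : Fin 6 → Fin 6 → Prop, (∀ v, ¬ D v v) ∧ IsSplit D ∧ ArcStrong 2 D ∧
    (∀ v, 5 ≤ degree D v) ∧ ¬ HasStrongArcDecomposition D := by
  refine ⟨D, ?_, isSplit, arcStrong, five_le_degree, no_decomposition⟩
  unfold D
  decide

end Pool.Agent.Results.MP_cb4251_co.SixVertices
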